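import Pool.Agent.Run7.h716.ZW.Defs

/-!
# The piece BIG of `Run7.h716.ZW` (helper586)
-/

set_option autoImplicit false

namespace Run7.h586.ZW

open Polynomial Run7.h716.ZW

theorem t_BIG : S_BIG := by
  intro A hA
  set d := A.natDegree with hd
  set cd := A.leadingCoeff with hcd
  have hc0 : cd ≠ 0 := leadingCoeff_ne_zero.2 hA
  have hc1 : 0 < |cd| := abs_pos.2 hc0
  set S : ℝ := ∑ j ∈ Finset.range d, |A.coeff j| with hS
  have hS0 : 0 ≤ S := Finset.sum_nonneg fun j _ => abs_nonneg _
  set a0 : ℝ := max 1 (S / |cd|) with ha0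
  have ha1 : 1 ≤ a0 := le_max_left _ _
  have haS : S ≤ |cd| * a0 := by
    have h1 : S / |cd| ≤ a0 := le_max_right _ _
    rw [div_le_iff₀ hc1] at h1
    linarith
  refine ⟨a0, by linarith, fun F hF0 hF k => ?_⟩
  have hstep : ∀ j n : ℕ, j + 1 ≤ n → a0 * F (k + j) ≤ F (k + n) := by
    intro j n hn
    induction n, hn using Nat.le_induction with
    | base =>
      have h1 := hF (k + j)
      rw [add_assoc] at h1
      push_cast
      exact h1
    | succ n _ ih =>
      have h1 := hF (k + n)
      have h2 := hF0 (k + n)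
      rw [add_assoc] at h1
      push_cast
      refine ih.trans (le_trans ?_ h1)
      nlinarith
  have hsum : |∑ j ∈ Finset.range d, A.coeff j * F (k + j)| * a0 ≤ (|cd| * F (k + d)) * a0 := by
    calc |∑ j ∈ Finset.range d, A.coeff j * F (k + j)| * a0
        ≤ (∑ j ∈ Finset.range d, |A.coeff j * F (k + j)|) * a0 :=
          mul_le_mul_of_nonneg_right (Finset.abs_sum_le_sum_abs _ _) (by linarith)
      _ = ∑ j ∈ Finset.range d, |A.coeff j| * (a0 * F (k + j)) := by
          rw [Finset.sum_mul]
          refine Finset.sum_congr rfl fun j _ => ?_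
          rw [abs_mul, abs_of_nonneg (hF0 _)]
          ring
      _ ≤ ∑ j ∈ Finset.range d, |A.coeff j| * F (k + d) := by
          refine Finset.sum_le_sum fun j hj => ?_
          exact mul_le_mul_of_nonneg_left (hstep j d (Finset.mem_range.1 hj)) (abs_nonneg _)
      _ = S * F (k + d) := by rw [hS, Finset.sum_mul]
      _ ≤ (|cd| * a0) * F (k + d) := mul_le_mul_of_nonneg_right haS (hF0 _)
      _ = (|cd| * F (k + d)) * a0 := by ring
  have hsum2 : |∑ j ∈ Finset.range d, A.coeff j * F (k + j)| ≤ |cd| * F (k + d) :=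
    le_of_mul_le_mul_right hsum (by linarith)
  have hap : ap A F k = (∑ j ∈ Finset.range d, A.coeff j * F (k + j)) + cd * F (k + d) := by
    rw [ap_apply, Finset.sum_range_succ]
    rfl
  rw [hap, mul_add]
  set SS := ∑ j ∈ Finset.range d, A.coeff j * F (k + j) with hSS
  have h1 : |cd * SS| ≤ |cd| * (|cd| * F (k + d)) := by
    rw [abs_mul]
    exact mul_le_mul_of_nonneg_left hsum2 (abs_nonneg _)
  have h2 : |cd| * (|cd| * F (k + d)) = cd * (cd * F (k + d)) := by
    rw [← mul_assoc, ← mul_assoc, abs_mul_abs_self]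
  have h3 := (abs_le.1 h1).1
  linarith

end Run7.h586.ZW
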