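import Pool.Agent.Run7.h716.ZW.Alg

/-!
# The piece LLA of `Run7.h716.ZW` (helper586)
-/

set_option autoImplicit false

namespace Run7.h586.ZW

open Filter Run7.h716.ZW

theorem lf_zero (F : ℤ →₀ ℤ) (k : ℤ) : lf 0 F k = 0 := by
  unfold lf
  exact Finsupp.sum_zero_index

theorem lf_single (F : ℤ →₀ ℤ) (k : ℤ) : lf (Finsupp.single 0 1) F k = F k := by
  unfold lf
  rw [Finsupp.sum_single_index (by simp)]
  simp

theorem lf_add (c c' : ℤ →₀ ℤ) (F : ℤ →₀ ℤ) (k : ℤ) : lf (c + c') F k = lf c F k + lf c' F k := by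
  unfold lf
  exact Finsupp.sum_add_index' (fun _ => by simp) (fun _ _ _ => by ring)

theorem lf_neg (c : ℤ →₀ ℤ) (F : ℤ →₀ ℤ) (k : ℤ) : lf (-c) F k = - lf c F k := by
  have h := lf_add (-c) c F k
  rw [neg_add_cancel, lf_zero] at h
  linarith

theorem lf_shift (c : ℤ →₀ ℤ) (F : ℤ →₀ ℤ) (k m : ℤ) :
    lf (c.mapDomain fun i => m + i) F k = lf c F (k + m) := by
  unfold lf
  rw [Finsupp.sum_mapDomain_index (fun _ => by simp) (fun _ _ _ => by ring)]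
  refine Finsupp.sum_congr fun i _ => ?_
  rw [add_assoc]

theorem t_LLA : S_LLA := by
  classical
  intro F _
  refine ⟨⟨{0}, fun R => Eventually.of_forall fun j k0 => ⟨0, Finset.mem_singleton_self _, fun k _ _ => ?_⟩⟩,
    ⟨{Finsupp.single 0 1}, fun R => Eventually.of_forall fun j k0 =>
      ⟨Finsupp.single 0 1, Finset.mem_singleton_self _, fun k _ _ => ?_⟩⟩, ?_, ?_, ?_⟩
  · exact (lf_zero _ _).symm
  · exact (lf_single _ _).symm
  · rintro b b' ⟨A, hA⟩ ⟨A', hA'⟩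
    refine ⟨(A ×ˢ A').image fun p => p.1 + p.2, fun R => ?_⟩
    filter_upwards [hA R, hA' R] with j h1 h2 k0
    obtain ⟨c, hc, h3⟩ := h1 k0
    obtain ⟨c', hc', h4⟩ := h2 k0
    refine ⟨c + c', Finset.mem_image.2 ⟨(c, c'), Finset.mem_product.2 ⟨hc, hc'⟩, rfl⟩, fun k hk1 hk2 => ?_⟩
    rw [lf_add, h3 k hk1 hk2, h4 k hk1 hk2]
  · rintro b ⟨A, hA⟩
    refine ⟨A.image fun c => -c, fun R => ?_⟩
    filter_upwards [hA R] with j h1 k0
    obtain ⟨c, hc, h3⟩ := h1 k0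
    refine ⟨-c, Finset.mem_image.2 ⟨c, hc, rfl⟩, fun k hk1 hk2 => ?_⟩
    rw [lf_neg, h3 k hk1 hk2]
  · rintro b m ⟨A, hA⟩
    refine ⟨A.image fun c => c.mapDomain fun i => m + i, fun R => ?_⟩
    filter_upwards [hA R] with j h1 k0
    obtain ⟨c, hc, h3⟩ := h1 (k0 + m)
    refine ⟨c.mapDomain fun i => m + i, Finset.mem_image.2 ⟨c, hc, rfl⟩, fun k hk1 hk2 => ?_⟩
    rw [lf_shift]
    exact h3 (k + m) (by omega) (by omega)

end Run7.h586.ZW
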